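import Mathlib
import Pool.Agent.KS6_3.ZL.H387R3.ZT.Stmts
import Pool.Agent.KS6_3.ZL.H525R3.FFp.RR

/-! Lemmas on coefficientwise powers, for the reciprocity statement (C3). -/

set_option autoImplicit false

namespace Pool.Agent.H309R3.Rec

open Polynomial Pool.Agent.H387R3.ZT

section powC

variable {κ : Type} [Field κ]

theorem powC_coeff {N : ℕ} (hN : N ≠ 0) (P : κ[X]) (j : ℕ) :
    (powC N P).coeff j = P.coeff j ^ N := by
  rw [powC, Polynomial.sum_def, finsetSum_coeff]
  simp only [coeff_C_mul, coeff_X_pow]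
  by_cases hj : P.coeff j = 0
  · rw [hj, zero_pow hN]
    refine Finset.sum_eq_zero fun i hi => ?_
    by_cases h : j = i
    · subst h
      rw [hj, zero_pow hN, zero_mul]
    · rw [if_neg h, mul_zero]
  · rw [Finset.sum_eq_single j]
    · simp
    · intro b _ hb
      rw [if_neg (Ne.symm hb), mul_zero]
    · intro h
      exact absurd (mem_support_iff.2 hj) h

theorem powC_eq_map (p : ℕ) [Fact p.Prime] [CharP κ p] (i : ℕ) (P : κ[X]) :
    powC (p ^ i) P = P.map (iterateFrobenius κ p i) := by
  ext j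
  rw [powC_coeff (pow_ne_zero _ (Fact.out : p.Prime).ne_zero), coeff_map, iterateFrobenius_def]

theorem nrm_eq (p : ℕ) [Fact p.Prime] [CharP κ p] (r m : ℕ) (P : κ[X]) :
    nrm (p ^ r) m P = ∏ i ∈ Finset.range m, P.map (iterateFrobenius κ p (r * i)) := by
  rw [nrm]
  refine Finset.prod_congr rfl fun i _ => ?_
  rw [← pow_mul, powC_eq_map]

theorem nrm_mul (p : ℕ) [Fact p.Prime] [CharP κ p] (r m : ℕ) (P Q : κ[X]) :
    nrm (p ^ r) m (P * Q) = nrm (p ^ r) m P * nrm (p ^ r) m Q := by
  simp only [nrm_eq, Polynomial.map_mul, Finset.prod_mul_distrib]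

theorem nrm_one (p : ℕ) [Fact p.Prime] [CharP κ p] (r m : ℕ) :
    nrm (p ^ r) m (1 : κ[X]) = 1 := by
  simp only [nrm_eq, Polynomial.map_one, Finset.prod_const_one]

theorem nrm_nrm (p : ℕ) [Fact p.Prime] [CharP κ p] (r d : ℕ) (P : κ[X]) :
    nrm p r (nrm (p ^ r) d P) = nrm p (r * d) P := by
  have h1 : ∀ (m : ℕ) (Q : κ[X]), nrm p m Q =
      ∏ i ∈ Finset.range m, Q.map (iterateFrobenius κ p i) := by
    intro m Q
    have := nrm_eq p 1 m Q
    simpa using this
  rw [h1, h1, nrm_eq]
  induction d with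
  | zero => simp
  | succ d ih =>
    have h2 : r * (d + 1) = r * d + r := by ring
    rw [h2, Finset.prod_range_add (fun i => P.map (iterateFrobenius κ p i)) (r * d) r, ← ih]
    simp only [Finset.prod_range_succ, Polynomial.map_mul, Finset.prod_mul_distrib]
    congr 1
    refine Finset.prod_congr rfl fun i _ => ?_
    rw [Polynomial.map_map, ← iterateFrobenius_add, add_comm]

theorem dvd_map_sub {κ' : Type} [Field κ'] (f : κ →+* κ') (M : ℕ) {P Q : κ[X]}
    (h : (X : κ[X]) ^ M ∣ P - Q) : (X : κ'[X]) ^ M ∣ P.map f - Q.map f := by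
  have := (mapRingHom f).map_dvd h
  simpa using this

theorem dvd_of_map_sub {κ' : Type} [Field κ'] (f : κ →+* κ') (M : ℕ) {P Q : κ[X]}
    (h : (X : κ'[X]) ^ M ∣ P.map f - Q.map f) : (X : κ[X]) ^ M ∣ P - Q := by
  rw [X_pow_dvd_iff] at h ⊢
  intro d hd
  have := h d hd
  rw [coeff_sub, coeff_map, coeff_map, ← map_sub] at this
  rw [coeff_sub]
  exact (map_eq_zero f).1 this

theorem nrm_congr (p : ℕ) [Fact p.Prime] [CharP κ p] (r m M : ℕ) {P Q : κ[X]}
    (h : (X : κ[X]) ^ M ∣ P - Q) : (X : κ[X]) ^ M ∣ nrm (p ^ r) m P - nrm (p ^ r) m Q := by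
  rw [nrm_eq, nrm_eq]
  induction m with
  | zero => simp
  | succ m ih =>
    rw [Finset.prod_range_succ, Finset.prod_range_succ]
    have h2 := dvd_map_sub (iterateFrobenius κ p (r * m)) M h
    set A := ∏ i ∈ Finset.range m, P.map (iterateFrobenius κ p (r * i))
    set B := ∏ i ∈ Finset.range m, Q.map (iterateFrobenius κ p (r * i))
    set a := P.map (iterateFrobenius κ p (r * m))
    set b := Q.map (iterateFrobenius κ p (r * m))
    have h3 : A * a - B * b = (A - B) * a + B * (a - b) := by ring
    rw [h3]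
    exact dvd_add (Dvd.dvd.mul_right ih _) (Dvd.dvd.mul_left h2 _)

theorem nrm_map {κ' : Type} [Field κ'] (f : κ →+* κ') (p : ℕ) [Fact p.Prime] [CharP κ p]
    [CharP κ' p] (r m : ℕ) (P : κ[X]) : (nrm (p ^ r) m P).map f = nrm (p ^ r) m (P.map f) := by
  rw [nrm_eq, nrm_eq, Polynomial.map_prod]
  refine Finset.prod_congr rfl fun i _ => ?_
  rw [Polynomial.map_map, Polynomial.map_map]
  congr 1
  ext x
  simp [iterateFrobenius_def]

end powC

/-- The norm to the constant field has coefficients in the constant field. -/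
theorem exists_nrm_descends (k κ : Type) [Field k] [Finite k] [Field κ] [Algebra k κ]
    [FiniteDimensional k κ] (p : ℕ) [Fact p.Prime] [CharP k p] (P : κ[X]) :
    ∃ c : k[X], c.map (algebraMap k κ) = nrm (Nat.card k) (Module.finrank k κ) P := by
  classical
  have hκp : CharP κ p := charP_of_injective_algebraMap (algebraMap k κ).injective p
  have hκf : Finite κ := Module.finite_of_finite k
  have := Fintype.ofFinite k
  have := Fintype.ofFinite κ
  obtain ⟨r, -, hr⟩ := FiniteField.card k p
  have hq : Nat.card k = p ^ (r : ℕ) := by rw [Nat.card_eq_fintype_card, hr]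
  set d := Module.finrank k κ with hd
  have hd0 : 0 < d := Module.finrank_pos
  have hcard : Nat.card κ = p ^ ((r : ℕ) * d) := by
    rw [Module.natCard_eq_pow_finrank (K := k) (V := κ), hq, ← pow_mul]
  rw [hq]
  -- invariance
  have h1 : (nrm (p ^ (r : ℕ)) d P).map (iterateFrobenius κ p r) = nrm (p ^ (r : ℕ)) d P := by
    by_cases hP : P = 0
    · subst hP
      rw [nrm_eq]
      simp [Finset.prod_const, hd0.ne']
    · have h2 : P.map (iterateFrobenius κ p ((r : ℕ) * d)) = P := by
        ext j
        rw [coeff_map, iterateFrobenius_def, ← hcard, Nat.card_eq_fintype_card,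
          FiniteField.pow_card]
      have h3 : ∏ i ∈ Finset.range (d + 1), P.map (iterateFrobenius κ p ((r : ℕ) * i)) =
          nrm (p ^ (r : ℕ)) d P * P := by
        rw [Finset.prod_range_succ, h2, nrm_eq]
      have h4 : ∏ i ∈ Finset.range (d + 1), P.map (iterateFrobenius κ p ((r : ℕ) * i)) =
          (nrm (p ^ (r : ℕ)) d P).map (iterateFrobenius κ p r) * P := by
        rw [Finset.prod_range_succ', nrm_eq, Polynomial.map_prod]
        congr 1
        · refine Finset.prod_congr rfl fun i _ => ?_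
          rw [Polynomial.map_map, ← iterateFrobenius_add, mul_add, mul_one, add_comm]
        · ext j
          simp
      exact mul_right_cancel₀ hP (h4.symm.trans h3)
  -- descent
  have h5 : ∀ x : κ, x ^ (p ^ (r : ℕ)) = x → x ∈ (algebraMap k κ).range := by
    intro x hx
    have h6 : ((X ^ Fintype.card k - X : k[X])).Splits := by
      have := FiniteField.roots_X_pow_card_sub_X k
      rw [splits_iff_card_roots, this]
      rw [FiniteField.X_pow_card_sub_X_natDegree_eq k Fintype.one_lt_card]
      exact Finset.card_univ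
    have h7 := h6.roots_map (algebraMap k κ)
    have h8 : x ∈ ((X ^ Fintype.card k - X : k[X]).map (algebraMap k κ)).roots := by
      rw [Polynomial.mem_roots']
      refine ⟨?_, ?_⟩
      · exact (Polynomial.map_ne_zero_iff (algebraMap k κ).injective).2
          (FiniteField.X_pow_card_sub_X_ne_zero k Fintype.one_lt_card)
      · simp [hr, hx]
    rw [h7, Multiset.mem_map] at h8
    obtain ⟨y, -, hy⟩ := h8
    exact ⟨y, hy⟩
  have h9 : nrm (p ^ (r : ℕ)) d P ∈ Polynomial.lifts (algebraMap k κ) := by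
    rw [Polynomial.lifts_iff_coeff_lifts]
    intro j
    have := h5 ((nrm (p ^ (r : ℕ)) d P).coeff j) (by
      have h10 := congrArg (fun Q : κ[X] => Q.coeff j) h1
      simp only [coeff_map, iterateFrobenius_def] at h10
      exact h10)
    exact this
  exact (Polynomial.mem_lifts _).1 h9

end Pool.Agent.H309R3.Rec
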