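import Mathlib
import Pool.Agent.KS6_3.ZL.H309R3.Rec.C3a

/-! Task (C3): reciprocity from (C0), (C1), (C2). -/

set_option autoImplicit false

namespace Pool.Agent.H309R3.Rec

open Polynomial Pool.Agent.H387R3.ZT

/-- The order of `1 + X` modulo `X ^ (p ^ n)`. -/
theorem one_add_X_aux {k : Type} [Field k] (p n : ℕ) [Fact p.Prime] [CharP k p] (N : ℕ)
    (h : (X : k[X]) ^ (p ^ n) ∣ (1 + X) ^ N - 1) : p ^ n ∣ N := by
  rcases Nat.eq_zero_or_pos N with rfl | hN
  · exact dvd_zero _
  obtain ⟨e, m, hm, rfl⟩ := Nat.exists_eq_pow_mul_and_not_dvd hN.ne' p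
    (Fact.out : p.Prime).ne_one
  by_cases hen : n ≤ e
  · exact Dvd.dvd.mul_right (pow_dvd_pow p hen) m
  exfalso
  have h1 : ((1 + X : k[X]) ^ (p ^ e * m)) = expand k (p ^ e) ((1 + X) ^ m) := by
    rw [pow_mul, add_pow_char_pow, one_pow, map_pow, map_add, map_one, expand_X]
  have h2 := X_pow_dvd_iff.1 h (p ^ e)
    (Nat.pow_lt_pow_right (Fact.out : p.Prime).one_lt (not_le.1 hen))
  have hpe : 0 < p ^ e := pow_pos (Fact.out : p.Prime).pos e
  rw [h1, coeff_sub] at h2
  have h3 := coeff_expand_mul (R := k) hpe ((1 + X) ^ m) 1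
  rw [one_mul] at h3
  rw [h3, coeff_one_add_X_pow, coeff_one, if_neg hpe.ne', sub_zero, Nat.choose_one_right,
    CharP.cast_eq_zero_iff k p] at h2
  exact hm h2

theorem one_add_X_dvd {k : Type} [Field k] (p n : ℕ) [Fact p.Prime] [CharP k p] (A B : ℕ)
    (h : (X : k[X]) ^ (p ^ n) ∣ (1 + X) ^ A - (1 + X) ^ B) : ((p ^ n : ℕ) : ℤ) ∣ (A : ℤ) - B := by
  wlog hAB : B ≤ A generalizing A B
  · have h1 := this B A (by rw [← dvd_neg]; simpa using h) (by omega)
    rw [← dvd_neg]
    simpa using h1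
  have h1 : (1 + X : k[X]) ^ A - (1 + X) ^ B = (1 + X) ^ B * ((1 + X) ^ (A - B) - 1) := by
    rw [mul_sub, mul_one, ← pow_add]
    congr 2
    omega
  rw [h1] at h
  have h2 : IsCoprime ((X : k[X]) ^ (p ^ n)) ((1 + X) ^ B) := by
    apply IsCoprime.pow
    exact ⟨-1, 1, by ring⟩
  have h3 := one_add_X_aux p n (A - B) (h2.dvd_of_dvd_mul_left h)
  have h4 : ((p ^ n : ℕ) : ℤ) ∣ ((A - B : ℕ) : ℤ) := Int.natCast_dvd_natCast.2 h3
  rwa [Nat.cast_sub hAB] at h4

section main

variable {k F : Type} [Field k] [Finite k] [Field F] [Algebra k F] [FF.IsFF k F]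

omit [Finite k] [FF.IsFF k F] in
theorem ord_aux (v : FF.Place k F) {g : F} (hg0 : g ≠ 0) (hg1 : g - 1 ≠ 0) :
    v.ord g = ((v.ord ((g - 1)⁻¹ + 1)).toNat : ℤ) - (v.ord ((g - 1)⁻¹)).toNat := by
  have h1 : (g - 1)⁻¹ + 1 = g * (g - 1)⁻¹ := by
    field_simp
    ring
  rw [h1, v.ord_mul hg0 (inv_ne_zero hg1), v.ord_inv]
  have h2 := v.ord_sub (f := g) (g := 1) hg0 one_ne_zero hg1
  have h3 := v.ord_add (f := g - 1) (g := 1) hg1 one_ne_zero (by simpa using hg0)
  have h4 := v.ord_sub (f := g) (g := g - 1) hg0 hg1 (by simp)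
  rw [sub_add_cancel] at h3
  rw [sub_sub_cancel] at h4
  rw [v.ord_one] at h2 h3 h4
  rcases min_le_iff.1 h2 with h2 | h2 <;> rcases min_le_iff.1 h3 with h3 | h3 <;>
    rcases min_le_iff.1 h4 with h4 | h4 <;> omega

/-- The separable case. -/
theorem rec_sep (p n : ℕ) [Fact p.Prime] [CharP k p] (h1 : TaskC1) (h2 : TaskC2)
    (T : Finset (FF.Place k F)) (hT : T.Nonempty) (w : F[X]) (hw : w.coeff 0 = 1)
    (hreg : ∀ v ∉ T, ∀ j, v.Reg (w.coeff j)) (a : FF.Place k F → ℕ)
    (ha : ∀ v ∉ T, (X : v.RF[X]) ^ (p ^ n) ∣ (1 + X) ^ a v - nrmP p v w) (mx : ℕ)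
    (hmx : ∀ x ∈ T, ∀ j, w.coeff j ≠ 0 → -(mx : ℤ) ≤ x.ord (w.coeff j)) (g : F) (hg0 : g ≠ 0)
    (hg1 : g ≠ 1) (hgT : ∀ x ∈ T, ((p ^ n * mx + 1 : ℕ) : ℤ) ≤ x.ord (g - 1))
    (hsep : Algebra.IsSeparable (IntermediateField.adjoin k {g}) F) :
    ((p ^ n : ℕ) : ℤ) ∣ ∑ᶠ v : FF.Place k F, v.ord g * (a v : ℤ) := by
  classical
  have hgs : g - 1 ≠ 0 := sub_ne_zero.2 hg1
  obtain ⟨u, hudef⟩ : ∃ u : F, u = (g - 1)⁻¹ := ⟨_, rfl⟩
  have hu0 : u ≠ 0 := hudef ▸ inv_ne_zero hgs
  have hM : 0 < p ^ n := pow_pos (Fact.out : p.Prime).pos n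
  have hordu : ∀ v : FF.Place k F, v.ord u = - v.ord (g - 1) := by
    intro v
    rw [hudef, v.ord_inv]
  have hT1 : ∀ x ∈ T, x.ord u ≤ -((p ^ n * mx + 1 : ℕ) : ℤ) := by
    intro x hx
    have := hgT x hx
    rw [hordu]
    omega
  have hT2 : ∀ x ∈ T, x.ord u < 0 := by
    intro x hx
    have := hT1 x hx
    push_cast at this
    have h3 : (0 : ℤ) ≤ (p : ℤ) ^ n * mx := by positivity
    omega
  have hutr : Transcendental k u := by
    obtain ⟨x, hx⟩ := hT
    exact x.transcendental_of_ord_ne (hT2 x hx).ne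
  have hadj : IntermediateField.adjoin k {u} = IntermediateField.adjoin k {g} := by
    apply le_antisymm
    · rw [IntermediateField.adjoin_simple_le_iff, hudef]
      exact inv_mem (sub_mem (IntermediateField.mem_adjoin_simple_self k g) (one_mem _))
    · rw [IntermediateField.adjoin_simple_le_iff]
      have h3 : g = u⁻¹ + 1 := by
        rw [hudef, inv_inv, sub_add_cancel]
      rw [h3]
      exact add_mem (inv_mem (IntermediateField.mem_adjoin_simple_self k u)) (one_mem _)
  have hsepu : Algebra.IsSeparable (IntermediateField.adjoin k {u}) F := by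
    rw [hadj]
    exact hsep
  have hfin : FiniteDimensional (IntermediateField.adjoin k {u}) F := FF.IsFF.finite hutr
  have hregu : ∀ v : FF.Place k F, 0 ≤ v.ord u → ∀ j, v.Reg (w.coeff j) := by
    intro v hv
    refine hreg v fun hvT => ?_
    have := hT2 v hvT
    omega
  obtain ⟨h, hh⟩ := h1 k F u (p ^ n) hutr hsepu w hw hregu (by
    intro v hv j hj hj0
    by_cases hvT : v ∈ T
    · rcases Nat.eq_zero_or_pos j with rfl | hjpos
      · rw [hw, v.ord_one]
        simp
      · have h3 := hT1 v hvT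
        have h4 := hmx v hvT j hj0
        have h5 : (j : ℤ) * v.ord u ≤ v.ord u := by nlinarith
        have h6 : ((p ^ n : ℕ) : ℤ) * -(mx : ℤ) ≤ ((p ^ n : ℕ) : ℤ) * v.ord (w.coeff j) :=
          mul_le_mul_of_nonneg_left h4 (by positivity)
        push_cast at h3 h6 ⊢
        linarith
    · have h3 := (v.reg_iff hj0).1 (hreg v hvT j)
      have h4 : (j : ℤ) * v.ord u ≤ 0 := by nlinarith
      have h5 : (0 : ℤ) ≤ ((p ^ n : ℕ) : ℤ) * v.ord (w.coeff j) := by positivity
      linarith)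
  have hc : ∀ v : FF.Place k F, ∃ c : k[X], c.map (algebraMap k v.RF) = nrmK v w := fun v =>
    exists_nrm_descends k v.RF p (redP v w)
  choose c hc using hc
  obtain ⟨r, hq⟩ : ∃ r : ℕ, Nat.card k = p ^ r := by
    have := Fintype.ofFinite k
    obtain ⟨r, -, hr⟩ := FiniteField.card k p
    exact ⟨r, by rw [Nat.card_eq_fintype_card, hr]⟩
  -- the norms down to the prime field
  have hcn : ∀ v ∉ T, (X : k[X]) ^ (p ^ n) ∣ (1 + X) ^ a v - nrm p r (c v) := by
    intro v hv
    have hκp : CharP v.RF p := charP_of_injective_algebraMap (algebraMap k v.RF).injective p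
    apply dvd_of_map_sub (algebraMap k v.RF)
    have h3 : (nrm p r (c v)).map (algebraMap k v.RF) = nrmP p v w := by
      have h4 := nrm_map (algebraMap k v.RF) p 1 r (c v)
      rw [pow_one] at h4
      rw [h4, hc, nrmK, hq, nrm_nrm, nrmP]
      congr 1
      have hκf : Finite v.RF := Module.finite_of_finite k
      rw [Module.natCard_eq_pow_finrank (K := k) (V := v.RF), hq, ← pow_mul,
        Nat.log_pow (Fact.out : p.Prime).one_lt]
      rfl
    rw [h3]
    simpa using ha v hv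
  -- the quotient ring
  set I : Ideal k[X] := Ideal.span {(X : k[X]) ^ (p ^ n)} with hI
  have hmk : ∀ P Q : k[X], (X : k[X]) ^ (p ^ n) ∣ P - Q → Ideal.Quotient.mk I P =
      Ideal.Quotient.mk I Q := by
    intro P Q hPQ
    rw [Ideal.Quotient.eq, hI, Ideal.mem_span_singleton]
    exact hPQ
  let ψ : k[X] →* (k[X] ⧸ I) :=
    { toFun := fun P => Ideal.Quotient.mk I (nrm p r P)
      map_one' := by
        have := nrm_one (κ := k) p 1 r
        rw [pow_one] at this
        rw [this, map_one]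
      map_mul' := fun P Q => by
        have := nrm_mul (κ := k) p 1 r P Q
        rw [pow_one] at this
        rw [this, map_mul] }
  have hψ : ∀ P : k[X], ψ P = Ideal.Quotient.mk I (nrm p r P) := fun P => rfl
  have hψc : ∀ v ∉ T, ψ (c v) = Ideal.Quotient.mk I (1 + X) ^ a v := by
    intro v hv
    rw [hψ, ← map_pow]
    exact (hmk _ _ (hcn v hv)).symm
  have hψcongr : ∀ P Q : k[X], (X : k[X]) ^ (p ^ n) ∣ P - Q → ψ P = ψ Q := by
    intro P Q hPQ
    rw [hψ, hψ]
    apply hmk
    have := nrm_congr (κ := k) p 1 r (p ^ n) hPQ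
    rwa [pow_one] at this
  -- the finite set of places
  obtain ⟨S, hS⟩ : ∃ S : Finset (FF.Place k F), ∀ v ∉ S, v.ord g = 0 ∧ v.ord (g - 1) = 0 := by
    refine ⟨(Pool.Agent.H525R3.FFp.finite_support (k := k) g).toFinset ∪
      (Pool.Agent.H525R3.FFp.finite_support (k := k) (g - 1)).toFinset, fun v hv => ?_⟩
    simpa using hv
  have hmain : ∀ t : k, (∀ v ∉ S, v.ord (u - algebraMap k F t) = 0) →
      ψ h = Ideal.Quotient.mk I (1 + X) ^
        (∑ v ∈ S, a v * (v.ord (u - algebraMap k F t)).toNat) := by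
    intro t ht
    have hTt : ∀ v ∈ T, (v.ord (u - algebraMap k F t)).toNat = 0 := by
      intro v hv
      have h3 := hT2 v hv
      by_cases h0 : t = 0
      · rw [h0, map_zero, sub_zero]
        omega
      · have h4 : algebraMap k F t ≠ 0 := by simpa using h0
        have h5 := v.ord_add_eq hu0 (neg_ne_zero.2 h4) (by
          rw [v.ord_neg, v.ord_const h0]
          exact h3)
        rw [← sub_eq_add_neg] at h5
        rw [h5.2]
        omega
    have h3 := h2 k F u (p ^ n) hutr hsepu w hregu h hh t c (by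
      intro v _
      rw [hc, sub_self]
      exact dvd_zero _)
    have h4 : (∏ᶠ v : FF.Place k F, c v ^ (v.ord (u - algebraMap k F t)).toNat) =
        ∏ v ∈ S, c v ^ (v.ord (u - algebraMap k F t)).toNat := by
      apply finprod_eq_prod_of_mulSupport_subset
      intro v hv
      rw [Function.mem_mulSupport] at hv
      by_contra hvS
      apply hv
      rw [ht v (by simpa using hvS)]
      simp
    rw [h4] at h3
    rw [← hψcongr _ _ h3, map_prod, ← Finset.prod_pow_eq_pow_sum]
    refine Finset.prod_congr rfl fun v _ => ?_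
    rw [map_pow]
    by_cases hvT : v ∈ T
    · rw [hTt v hvT]
      simp
    · rw [hψc v hvT, ← pow_mul]
  have ht0 : ∀ v ∉ S, v.ord (u - algebraMap k F 0) = 0 := by
    intro v hv
    rw [map_zero, sub_zero, hordu, (hS v hv).2, neg_zero]
  have ht1 : ∀ v ∉ S, v.ord (u - algebraMap k F (-1)) = 0 := by
    intro v hv
    have h3 : u - algebraMap k F (-1) = g * u := by
      rw [map_neg, map_one, sub_neg_eq_add, hudef]
      field_simp
      ring
    rw [h3, v.ord_mul hg0 hu0, hordu, (hS v hv).2, (hS v hv).1]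
    simp
  have h3 := (hmain (-1) ht1).symm.trans (hmain 0 ht0)
  rw [← map_pow, ← map_pow, Ideal.Quotient.eq, hI, Ideal.mem_span_singleton] at h3
  have h4 := one_add_X_dvd p n _ _ h3
  have h5 : ∑ᶠ v : FF.Place k F, v.ord g * (a v : ℤ) = ∑ v ∈ S, v.ord g * (a v : ℤ) := by
    apply finsum_eq_sum_of_support_subset
    intro v hv
    rw [Function.mem_support] at hv
    by_contra hvS
    apply hv
    rw [(hS v (by simpa using hvS)).1, zero_mul]
  rw [h5]
  convert h4 using 1
  rw [Nat.cast_sum, Nat.cast_sum, ← Finset.sum_sub_distrib]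
  refine Finset.sum_congr rfl fun v _ => ?_
  have h6 := ord_aux v hg0 hgs
  rw [← hudef] at h6
  rw [h6, map_neg, map_one, sub_neg_eq_add, map_zero, sub_zero]
  push_cast
  ring

end main

/-- (C3) -/
theorem taskC3 : TaskC3 := by
  intro h0 h1 h2 p n _ k F _ _ _ _ _ _ T w hT hw hreg a ha
  classical
  -- a bound for the pole orders on `T`
  obtain ⟨mx, hmx⟩ : ∃ mx : ℕ, ∀ x ∈ T, ∀ j, w.coeff j ≠ 0 → -(mx : ℤ) ≤ x.ord (w.coeff j) := by
    refine ⟨∑ x ∈ T, ∑ j ∈ w.support, (x.ord (w.coeff j)).natAbs, fun x hx j hj => ?_⟩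
    have h3 : (x.ord (w.coeff j)).natAbs ≤ ∑ j ∈ w.support, (x.ord (w.coeff j)).natAbs :=
      Finset.single_le_sum (f := fun j => (x.ord (w.coeff j)).natAbs) (fun _ _ => Nat.zero_le _)
        (mem_support_iff.2 hj)
    have h4 : (∑ j ∈ w.support, (x.ord (w.coeff j)).natAbs) ≤
        ∑ x ∈ T, ∑ j ∈ w.support, (x.ord (w.coeff j)).natAbs :=
      Finset.single_le_sum (f := fun x : FF.Place k F =>
        ∑ j ∈ w.support, (x.ord (w.coeff j)).natAbs) (fun _ _ => Nat.zero_le _) hx
    omega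
  have hp : p.Prime := Fact.out
  have hstep : ∀ m : ℕ, m ≤ n → ∀ g : F, g ≠ 0 →
      (∀ x ∈ T, g = 1 ∨ (((p ^ n * mx + 1) * p ^ m : ℕ) : ℤ) ≤ x.ord (g - 1)) →
      ((p ^ m : ℕ) : ℤ) ∣ ∑ᶠ v : FF.Place k F, v.ord g * (a v : ℤ) := by
    intro m
    induction m with
    | zero =>
      intro _ g _ _
      simp
    | succ m ih =>
      intro hmn g hg0 hg
      by_cases hg1 : g = 1
      · subst hg1
        simp [FF.Place.ord_one]
      have hg' : ∀ x ∈ T, (((p ^ n * mx + 1) * p ^ (m + 1) : ℕ) : ℤ) ≤ x.ord (g - 1) :=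
        fun x hx => (hg x hx).resolve_left hg1
      by_cases hsep : Algebra.IsSeparable (IntermediateField.adjoin k {g}) F
      · refine dvd_trans ?_ (rec_sep p n h1 h2 T hT w hw hreg a ha mx hmx g hg0 hg1 ?_ hsep)
        · exact Int.natCast_dvd_natCast.2 (pow_dvd_pow p hmn)
        · intro x hx
          refine le_trans ?_ (hg' x hx)
          exact_mod_cast Nat.le_mul_of_pos_right _ (pow_pos hp.pos _)
      · have hgtr : Transcendental k g := by
          obtain ⟨x, hx⟩ := hT
          have h3 : x.ord (g - 1) ≠ 0 := by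
            have h4 := hg' x hx
            have h5 : 0 < (p ^ n * mx + 1) * p ^ (m + 1) :=
              Nat.mul_pos (Nat.succ_pos _) (pow_pos hp.pos _)
            omega
          have h4 := x.transcendental_of_ord_ne h3
          intro h5
          exact h4 (h5.sub isAlgebraic_one)
        obtain ⟨g₁, hg₁⟩ := h0 p k F g hgtr hsep
        have hg₁0 : g₁ ≠ 0 := by
          rintro rfl
          rw [zero_pow hp.ne_zero] at hg₁
          exact hg0 hg₁.symm
        have hFp : CharP F p := charP_of_injective_algebraMap (algebraMap k F).injective p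
        have h3 : g - 1 = (g₁ - 1) ^ p := by
          rw [sub_pow_char, hg₁, one_pow]
        have h4 := ih (by omega) g₁ hg₁0 (by
          intro x hx
          right
          have h5 := hg' x hx
          rw [h3, x.ord_pow] at h5
          have h6 : (((p ^ n * mx + 1) * p ^ (m + 1) : ℕ) : ℤ) =
              (p : ℤ) * (((p ^ n * mx + 1) * p ^ m : ℕ) : ℤ) := by
            push_cast
            ring
          rw [h6] at h5
          exact le_of_mul_le_mul_left h5 (by exact_mod_cast hp.pos))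
        have h5 : ∑ᶠ v : FF.Place k F, v.ord g * (a v : ℤ) =
            (p : ℤ) * ∑ᶠ v : FF.Place k F, v.ord g₁ * (a v : ℤ) := by
          rw [← smul_eq_mul (p : ℤ), smul_finsum]
          refine finsum_congr fun v => ?_
          rw [← hg₁, v.ord_pow, smul_eq_mul]
          ring
        rw [h5, pow_succ', Nat.cast_mul]
        exact mul_dvd_mul_left _ h4
  refine ⟨(p ^ n * mx + 1) * p ^ n, Nat.mul_pos (Nat.succ_pos _) (pow_pos hp.pos _), ?_⟩
  exact hstep n le_rfl

end Pool.Agent.H309R3.Rec
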